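import Mathlib
import Pool.Agent.H361R2.PA.MultA

set_option autoImplicit false

/-!
# Record prime-free intervals around a multiple of every integer

For every `D` there is `c > 0` such that for all large `X`, EVERY integer `1 ≤ a ≤ exp((log X)^D)`
and every integer `z` there is `n` with `z + X / 4 < n ≤ z + X` such that there is no prime within
`c (φ(a) / a) f(X)` of `a n`, where `f` is the record scale.  There is no condition on the prime
factors of `a`.

The proof is the one of the library module `Pool.Agent.H361R2.PA.MultA`: the record sieve of the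
starting files is run with the primes not dividing `a`; the loss is the factor `φ(a) / a`, and the
numbers `a n + j` which survive are killed one by one.
-/

namespace Pool.Agent.Results.MP_c853c5_nt.AllMultipliers

/-- The record scale `f(x) = log x (log₂ x)² log₄ x / (log₃ x)²` (iterated natural logarithms). -/
noncomputable def f (x : ℝ) : ℝ :=
  Real.log x * (Real.log (Real.log x)) ^ 2 * Real.log (Real.log (Real.log (Real.log x))) /
    (Real.log (Real.log (Real.log x))) ^ 2

/-- **Record prime-free intervals around a multiple of every integer.**  For every `D` there are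
`c > 0` and `X₀` such that for all real `X ≥ X₀`, all positive integers `a` with
`log a ≤ (log X)^D` and all integers `z` there is an integer `n` with `z + X / 4 < n ≤ z + X` such
that for every prime `q` one has `|q - a n| > c (φ(a) / a) f(X)`. -/
theorem result (D : ℕ) : ∃ c : ℝ, 0 < c ∧ ∃ X₀ : ℝ, ∀ X : ℝ, X₀ ≤ X →
    ∀ a : ℕ, 1 ≤ a → Real.log a ≤ (Real.log X) ^ D →
    ∀ z : ℤ, ∃ n : ℤ, (z : ℝ) + X / 4 < n ∧ (n : ℝ) ≤ z + X ∧
      ∀ q : ℕ, q.Prime → c * ((Nat.totient a : ℝ) / a) * f X < |(q : ℝ) - a * n| := by
  obtain ⟨c, hc, X₀, h⟩ := Pool.Agent.H361R2.PA.multM D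
  refine ⟨c, hc, max X₀ (Real.exp 1), fun X hX a ha haX z => ?_⟩
  have hX1 : Real.exp 1 ≤ X := (le_max_right _ _).trans hX
  have hL : 1 ≤ Real.log X := by
    rw [Real.le_log_iff_exp_le (by linarith [Real.exp_pos 1])]
    exact hX1
  have haX' : Real.log a ≤ (Real.log X) ^ (D + 1) :=
    haX.trans (pow_le_pow_right₀ hL (by omega))
  obtain ⟨n, hn1, hn2, hn3⟩ := h X ((le_max_left _ _).trans hX) a ha haX' z
  refine ⟨n, hn1, hn2, fun q hq => ?_⟩
  by_contra hcon
  push Not at hcon
  have hF : Pool.Agent.H361R2.PA.FF 1 X = f X := by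
    unfold Pool.Agent.H361R2.PA.FF f
    norm_num
  apply hn3 ((q : ℤ) - a * n)
  · push_cast
    rw [hF]
    linarith
  · have e : (a : ℤ) * n + ((q : ℤ) - a * n) = q := by ring
    rw [e]
    exact Nat.prime_iff_prime_int.1 hq

end Pool.Agent.Results.MP_c853c5_nt.AllMultipliers
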