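import Pool.Agent.V11113.MP.Kern2

set_option autoImplicit false

/-!
# Record prime gaps around polynomials of the sums of two arbitrary sets modulo a prime

Let `R(p) = log p (log₂ p)² log₄ p / (log₃ p)²`, the order of the largest prime gaps known (starting
library). For every `d ≥ 0` and `ε > 0` there is `κ > 0` such that for all large primes `p`, every
polynomial `F` of degree `d + 2` over the field with `p` elements, ARBITRARY sets `A`, `B` of residues,
ARBITRARY functions `f`, `g` and every interval `(M, M + H]` with `p ^ ε ≤ H ≤ p`,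
`|A| |B| H² ≥ p ^ (3 + ε)` and `|A| H² ≥ p ^ (3 - 2 ^ (- d) + ε)`: for at least
`|A| |B| H / p ^ (1 + ε / 2)` pairs `(a, b)` the residue `F(a + b) + f(a) + g(b)` is represented by an
integer in `(M, M + H]` which has no prime within distance `κ R(p)`.

For `H = p` and `f = g = 0`: the values of `F` at the elements of the sumset `A + B`, for any sets with
`|A| |B| ≥ p ^ (1 + ε)` and `|A| ≥ p ^ (1 - 2 ^ (- d) + ε)`; `F` is quadratic for `d = 0` and cubic for
`d = 1`. The constants do not depend on the coefficients of `F`.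

Proof. The inequality of Cauchy and Schwarz removes the set `A` and the functions; for `b ≠ b'` the
polynomial `F(a + b) - F(a + b')` in `a` has degree `d + 1`, and its complete exponential sum is
estimated by Weyl's method (`Pool.Agent.V1179.MH.weyl`, helper79). Then the criterion
`Pool.Agent.V11113.MP.many`.
-/

namespace Pool.Agent.Results.MP_c853c5_nt.PolynomialsOfSums

/-- `R(x) = log x (log log x)^2 log log log log x / (log log log x)^2`. -/
noncomputable def R (x : ℝ) : ℝ :=
  Real.log x * (Real.log (Real.log x)) ^ 2 * Real.log (Real.log (Real.log (Real.log x))) /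
    (Real.log (Real.log (Real.log x))) ^ 2

open scoped Classical Polynomial in
theorem result (d : ℕ) (ε : ℝ) (h0 : 0 < ε) (h1 : ε ≤ 1) : ∃ κ : ℝ, 0 < κ ∧ ∃ P : ℕ,
    ∀ p : ℕ, P ≤ p → p.Prime → ∀ F : (ZMod p)[X], F.natDegree = d + 2 →
    ∀ (A B : Finset (ZMod p)) (f g : ZMod p → ZMod p) (M H : ℕ),
    (p : ℝ) ^ ε ≤ H → H ≤ p →
    (p : ℝ) ^ (3 + ε) ≤ A.card * B.card * (H : ℝ) ^ 2 →
    (p : ℝ) ^ (3 - 1 / 2 ^ d + ε) ≤ A.card * (H : ℝ) ^ 2 →
    A.card * B.card * H * (p : ℝ) ^ (-(1 + ε / 2)) ≤
      ((A ×ˢ B).filter (fun x => ∃ n : ℕ, M < n ∧ n ≤ M + H ∧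
        (n : ZMod p) = F.eval (x.1 + x.2) + f x.1 + g x.2 ∧
        ∀ q : ℕ, q.Prime → κ * R p < |(q : ℝ) - n|)).card :=
  Pool.Agent.V11113.MP.polysums d ε h0 h1

end Pool.Agent.Results.MP_c853c5_nt.PolynomialsOfSums
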