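import Pool.Agent.V11251.SI.Fin2

/-!
# Several intervals of polylogarithmic length containing primes, at distances with rearranged digits

The Vinogradov bound for primes in short intervals, the passage from the first moment to a positive proportion (Selberg's
upper bound function) and the laws of the random integers are in the starting files (`Pool.Agent.W301.SS`,
`Pool.Agent.TH646.TT`, `Pool.Agent.TH894.LH`, `Pool.Agent.W93.AU`, `Pool.Agent.TH872`); new is the second moment method for
functions depending on the length and arbitrary laws, for several intervals at once, and the theorem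
(`Pool.Agent.V11251.SI`).
-/

set_option autoImplicit false

namespace Pool.Agent.Results.MP_c853c5_nt.RearrangedPlaces

open Finset

/-- `d` is a word of `k` digits in base `b`, in which no digit stands at more than `(1 - η) k` places. -/
def Mixed (b k : ℕ) (η : ℝ) (d : Fin k → ℕ) : Prop :=
  (∀ i, d i < b) ∧ ∀ a, ((univ.filter fun i => d i = a).card : ℝ) ≤ (1 - η) * k

/-- The integer whose `k` digits in base `b` are the digits `d` rearranged by the permutation `σ`: the digit number `j`
(the coefficient of `b ^ j`) is `d (σ j)`. -/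
def rearranged (b : ℕ) {k : ℕ} (d : Fin k → ℕ) (σ : Equiv.Perm (Fin k)) : ℕ := ∑ j : Fin k, d (σ j) * b ^ (j : ℕ)

/-- The number of the primes in `(n, n + y]`. -/
def primesIn (n y : ℕ) : ℕ := ((Ioc n (n + y)).filter Nat.Prime).card

open Classical in
/-- The set `A` has good translates at the vector of distances `x`: for all `(log N) ^ K ≤ y i ≤ N` the average over
`a ∈ A` of the product of the `s` numbers `primesIn (a + x i) (y i) / (y i / log N)` lies between `1 - ε` and `1 + ε`, and
at least `(1 / 4 ^ s - ε) |A|` elements `a` of `A` have at least `t (y i) / log N` primes in `(a + x i, a + x i + y i]` for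
all `i` simultaneously. -/
noncomputable def Good {s : ℕ} (ε t : ℝ) (K N : ℕ) (A : Finset ℕ) (x : Fin s → ℕ) : Prop :=
  ∀ y : Fin s → ℕ, (∀ i, Real.log N ^ K ≤ y i ∧ y i ≤ N) →
    |∑ a ∈ A, ∏ i, ((primesIn (a + x i) (y i) : ℝ) * Real.log N / y i) - A.card| ≤ ε * A.card ∧
    (1 / 4 ^ s - ε) * A.card ≤
      ((A.filter fun a => ∀ i, t * y i ≤ (primesIn (a + x i) (y i) : ℝ) * Real.log N).card : ℝ)

lemma good_iff {s : ℕ} (ε t : ℝ) (K N : ℕ) (A : Finset ℕ) (x : Fin s → ℕ) :
    Good ε t K N A x ↔ Pool.Agent.V11251.SI.Gd2 ε t K N A x := Iff.rfl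

open Classical in
/-- Let `s` be fixed, and for every `i < s` a base `b i ≥ 2` and a multiplier `κ i ≠ 0`; let `η > 0`, `B`, `T`, `U` and
`ε > 0` be fixed. Then there are `t > 0` and a `K` such that for all large `N`, all lengths `k i` with
`N / B ≤ (b i) ^ (k i) ≤ B N`, ANY words `d i` of `k i` digits in base `b i` in which no digit stands at more than
`(1 - η) (k i)` places, all integers `c i` with `|c i| ≤ B N` and ARBITRARY sets `A 0, ..., A (L - 1)`, `L ≤ log ^ T N`, of
at least `N / log ^ T N` integers in `[1, N]` each, all the vectors `(σ 0, ..., σ (s - 1))` of permutations of the places,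
with the exception of a proportion of at most `1 / log ^ U N` of them, have the following property if the integers
`x i = c i + (κ i) (v i)` lie in `[1, N]`, where `v i` is the integer whose digits are the digits of `d i` rearranged by
`σ i`: for all the sets `A l` and all integers `y 0, ..., y (s - 1)` between `(log N) ^ K` and `N`, the average over `a ∈ A l` of
the product of the `s` ratios (number of the primes in `(a + x i, a + x i + y i]`) / `(y i / log N)` lies between `1 - ε`
and `1 + ε`, and at least `(1 / 4 ^ s - ε) |A l|` elements `a` of `A l` have at least `t (y i) / log N` primes in each of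
the `s` intervals `(a + x i, a + x i + y i]`, simultaneously. -/
theorem result (s : ℕ) (b : Fin s → ℕ) (hb : ∀ i, 2 ≤ b i) (η : ℝ) (hη : 0 < η) (κ : Fin s → ℤ) (hκ : ∀ i, κ i ≠ 0)
    (B T U : ℕ) (ε : ℝ) (hε : 0 < ε) : ∃ t : ℝ, 0 < t ∧ ∃ K N₀ : ℕ, ∀ N, N₀ ≤ N →
    ∀ k : Fin s → ℕ, (∀ i, N ≤ B * b i ^ k i ∧ b i ^ k i ≤ B * N) →
    ∀ d : ∀ i, Fin (k i) → ℕ, (∀ i, Mixed (b i) (k i) η (d i)) → ∀ c : Fin s → ℤ, (∀ i, |c i| ≤ B * N) →
    ∀ L : ℕ, (L : ℝ) ≤ Real.log N ^ T → ∀ A : ℕ → Finset ℕ,
    (∀ l < L, A l ⊆ Icc 1 N ∧ (N : ℝ) / Real.log N ^ T ≤ (A l).card) →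
    (((univ : Finset (∀ i, Equiv.Perm (Fin (k i)))).filter (fun σ =>
      (∀ i, 1 ≤ c i + κ i * (rearranged (b i) (d i) (σ i) : ℤ) ∧ c i + κ i * (rearranged (b i) (d i) (σ i) : ℤ) ≤ N) ∧
      ∃ l < L, ¬ Good ε t K N (A l) (fun i => (c i + κ i * (rearranged (b i) (d i) (σ i) : ℤ)).toNat))).card : ℝ) ≤
      (∏ i, ((k i).factorial : ℝ)) / Real.log N ^ U := by
  obtain ⟨t, ht, K, N₀, h⟩ := Pool.Agent.V11251.SI.perm2 s b hb κ hκ η hη B T U ε hε
  refine ⟨t, ht, K, N₀ + 3, fun N hN k hk d hd c hc L hL A hA => ?_⟩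
  have hlog := Pool.Agent.V11251.DS.log_one (by omega : 3 ≤ N)
  have hp : 0 < Real.log N ^ T := by positivity
  exact h N (by omega) k (fun i => ⟨(hk i).2, (hk i).1⟩) d (fun i => ⟨(hd i).1, (hd i).2⟩) c hc L hL A
    (fun l hl => ⟨(hA l hl).1, (div_le_iff₀ hp).1 (hA l hl).2⟩) _ (fun v hv => hv)

end Pool.Agent.Results.MP_c853c5_nt.RearrangedPlaces
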