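import Pool.Agent.V11113.MP.SelfPow

set_option autoImplicit false

/-!
# Long prime-free intervals around `n` and around the residue of `n ^ n` modulo a prime

Let `R(p) = log p (log₂ p)² log₄ p / (log₃ p)²`, the order of the longest prime-free intervals known
(starting library). Let `a`, `b` be functions on the residues modulo `p`; `a` has at most `D` zeros
and `b` takes every value at most `D` times. For every `ε > 0`, all large `p` and all boxes
`(L, L + N] × (M, M + H]` with `p ^ (1 / 2 + ε) ≤ H ≤ p` and `N H ≥ p ^ (5 / 2 + ε)`, at least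
`N H / p ^ (1 + ε)` integers `j` in `(L, L + N]` have no prime within distance `κ R(p)`, and at the same
time the residue of `a(j) b(j) ^ j` modulo `p` is represented by an integer `n` in `(M, M + H]` which has
no prime within distance `κ R(p)`.

For `a = 1`, `b(j) = j` this is the self-power map `j ↦ j ^ j` modulo `p`; the integers `j` may be taken
in any interval of length `p ^ (3 / 2 + ε)`.

Proof. The exponents `j` are split according to their residues modulo `p` and modulo small numbers; in
each class `b(j) ^ j` runs through a geometric progression whose ratio has the order of `b(j)`, up to a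
small factor. The sums over these classes are at most `√p`, up to logarithms and the length of the class
divided by the order (`Pool.Agent.V11113.MP.SelfPow`), and the sum of the reciprocals of the orders is
at most `D` times the number of divisors of `p - 1`. The criterion is the covering criterion of the
library for two integers (`Pool.Agent.Y961.JR.critJ`), with a removal argument
(`Pool.Agent.V11113.MP.ManyJ`).
-/

namespace Pool.Agent.Results.MP_c853c5_nt.SelfPowers

/-- `R(x) = log x (log log x)^2 log log log log x / (log log log x)^2`. -/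
noncomputable def R (x : ℝ) : ℝ :=
  Real.log x * (Real.log (Real.log x)) ^ 2 * Real.log (Real.log (Real.log (Real.log x))) /
    (Real.log (Real.log (Real.log x))) ^ 2

open scoped Classical in
theorem result (D : ℕ) (ε : ℝ) (h0 : 0 < ε) (h1 : ε ≤ 1) : ∃ κ : ℝ, 0 < κ ∧ ∃ P : ℕ,
    ∀ p : ℕ, P ≤ p → ∀ [Fact p.Prime], ∀ a b : ZMod p → ZMod p,
    (Finset.univ.filter (fun x : ZMod p => a x = 0)).card ≤ D →
    (∀ y, (Finset.univ.filter (fun x : ZMod p => b x = y)).card ≤ D) →
    ∀ L N M H : ℕ, H ≤ p → (p : ℝ) ^ (1 / 2 + ε) ≤ H → (p : ℝ) ^ (5 / 2 + ε) ≤ N * H →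
    N * H * (p : ℝ) ^ (-(1 + ε)) ≤ ((Finset.Ioc L (L + N)).filter (fun j : ℕ =>
      (∀ q : ℕ, q.Prime → κ * R p < |(q : ℝ) - j|) ∧
      ∃ n : ℕ, M < n ∧ n ≤ M + H ∧ (n : ZMod p) = a j * b j ^ j ∧
      ∀ q : ℕ, q.Prime → κ * R p < |(q : ℝ) - n|)).card :=
  Pool.Agent.V11113.MP.selfpow D ε h0 h1

end Pool.Agent.Results.MP_c853c5_nt.SelfPowers
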